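import Pool.Agent.H23.FC.Targets

/-! Fourth moment of the complete family, row KKB: the bound of the kernel of weight `2 m`. -/

set_option autoImplicit false

open MeasureTheory Set Filter
open scoped Real Topology

namespace Pool.Agent.H38.FC

open Pool.Agent.H31.CN Pool.Agent.H89.FM Pool.Agent.H89.FC Pool.Agent.H23.FC

theorem kmi_meas (m : ℕ) (τ s r : ℂ) : Measurable (Kmi m τ s r) := by
  unfold Kmi phm
  fun_prop

/-- the angle of the rotation -/
noncomputable def th (m : ℕ) (t : ℝ) : ℝ := Real.arctan (t / (m + 1))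

/-- the radius -/
noncomputable def rh (m : ℕ) (t : ℝ) : ℝ := Real.sqrt (((m : ℝ) + 1) ^ 2 + t ^ 2)

theorem tum_eq (m : ℕ) (t : ℝ) : tum m t = Complex.exp ((th m t : ℂ) * Complex.I) := rfl

theorem tum_inv (m : ℕ) (t : ℝ) :
    (tum m t)⁻¹ = Complex.exp (((-th m t : ℝ) : ℂ) * Complex.I) := by
  rw [tum_eq, ← Complex.exp_neg]
  congr 1
  push_cast
  ring

theorem rh_pos (m : ℕ) (t : ℝ) : 0 < rh m t := by
  unfold rh
  apply Real.sqrt_pos.2
  positivity

theorem sqrt_eq (m : ℕ) (t : ℝ) :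
    Real.sqrt (1 + (t / (m + 1)) ^ 2) = rh m t / (m + 1) := by
  have hm : (0 : ℝ) < (m : ℝ) + 1 := by positivity
  have h1 : 1 + (t / ((m : ℝ) + 1)) ^ 2 = (((m : ℝ) + 1) ^ 2 + t ^ 2) / ((m : ℝ) + 1) ^ 2 := by
    field_simp
  rw [h1, Real.sqrt_div (by positivity), Real.sqrt_sq hm.le]
  rfl

theorem cos_th (m : ℕ) (t : ℝ) : Real.cos (th m t) = ((m : ℝ) + 1) / rh m t := by
  have hm : (0 : ℝ) < (m : ℝ) + 1 := by positivity
  unfold th
  rw [Real.cos_arctan, sqrt_eq, one_div_div]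

theorem sin_th (m : ℕ) (t : ℝ) : Real.sin (th m t) = t / rh m t := by
  have hm : (0 : ℝ) < (m : ℝ) + 1 := by positivity
  have hr := rh_pos m t
  unfold th
  rw [Real.sin_arctan, sqrt_eq]
  field_simp

theorem one_le_T (m : ℕ) (t : ℝ) : 1 ≤ 1 + |t| + (m : ℝ) := by
  have := abs_nonneg t
  have h2 : (0 : ℝ) ≤ (m : ℝ) := Nat.cast_nonneg m
  linarith

/-- the size of the rotated argument -/
theorem norm_rot (m : ℕ) (t θ u : ℝ) (r : ℂ) (hu : 0 < u) (hr : 0 < r.re)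
    (hi : 10 * (1 + |t| + m) * |r.im| ≤ r.re) :
    ‖Complex.exp ((θ : ℂ) * Complex.I) * u * r‖ ≤
      u * r.re * (1 + 1 / (10 * (1 + |t| + m))) := by
  have hT := one_le_T m t
  have hT0 : 0 < 1 + |t| + (m : ℝ) := by linarith
  rw [norm_mul, norm_mul, Complex.norm_exp_ofReal_mul_I, one_mul, Complex.norm_real,
    Real.norm_of_nonneg hu.le]
  have h1 := Complex.norm_le_abs_re_add_abs_im r
  rw [abs_of_pos hr] at h1
  have h2 : |r.im| ≤ r.re / (10 * (1 + |t| + m)) := by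
    rw [le_div_iff₀ (by positivity)]
    linarith
  have h3 : ‖r‖ ≤ r.re * (1 + 1 / (10 * (1 + |t| + m))) := by
    have : r.re * (1 + 1 / (10 * (1 + |t| + (m : ℝ)))) =
        r.re + r.re / (10 * (1 + |t| + m)) := by ring
    rw [this]
    linarith
  calc u * ‖r‖ ≤ u * (r.re * (1 + 1 / (10 * (1 + |t| + m)))) :=
        mul_le_mul_of_nonneg_left h3 hu.le
    _ = _ := by ring

/-- the real part of the rotated argument -/
theorem re_rot (m : ℕ) (t θ u : ℝ) (r : ℂ) (hθ : θ = th m t ∨ θ = -th m t) (hu : 0 < u)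
    (hr : 0 < r.re) (hi : 10 * (1 + |t| + m) * |r.im| ≤ r.re) :
    u * r.re * (((m : ℝ) + 1) / Real.sqrt (((m : ℝ) + 1) ^ 2 + t ^ 2)) *
      (1 - 1 / (10 * ((m : ℝ) + 1))) ≤ (Complex.exp ((θ : ℂ) * Complex.I) * u * r).re := by
  have hT := one_le_T m t
  have hT0 : 0 < 1 + |t| + (m : ℝ) := by linarith
  have hm : (0 : ℝ) < (m : ℝ) + 1 := by positivity
  have hρ := rh_pos m t
  have hc : Real.cos θ = ((m : ℝ) + 1) / rh m t := by
    rcases hθ with rfl | rfl
    · exact cos_th m t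
    · rw [Real.cos_neg]; exact cos_th m t
  have hs : |Real.sin θ| = |t| / rh m t := by
    rcases hθ with rfl | rfl
    · rw [sin_th, abs_div, abs_of_pos hρ]
    · rw [Real.sin_neg, abs_neg, sin_th, abs_div, abs_of_pos hρ]
  have h1 : (Complex.exp ((θ : ℂ) * Complex.I) * u * r).re =
      u * (Real.cos θ * r.re - Real.sin θ * r.im) := by
    have : Complex.exp ((θ : ℂ) * Complex.I) * u * r =
        (u : ℂ) * (Complex.exp ((θ : ℂ) * Complex.I) * r) := by ring
    rw [this, Complex.re_ofReal_mul, Complex.mul_re, Complex.exp_ofReal_mul_I_re,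
      Complex.exp_ofReal_mul_I_im]
  have h3 : Real.sin θ * r.im ≤ |t| / rh m t * |r.im| := by
    calc Real.sin θ * r.im ≤ |Real.sin θ * r.im| := le_abs_self _
      _ = |t| / rh m t * |r.im| := by rw [abs_mul, hs]
  have h4 : |t| * |r.im| ≤ r.re / 10 := by
    have e1 : |t| * |r.im| ≤ (1 + |t| + m) * |r.im| := by
      refine mul_le_mul_of_nonneg_right ?_ (abs_nonneg _)
      have : (0 : ℝ) ≤ (m : ℝ) := Nat.cast_nonneg m
      linarith
    linarith
  have h5 : |t| / rh m t * |r.im| ≤ r.re / 10 / rh m t := by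
    rw [div_mul_eq_mul_div]
    exact div_le_div_of_nonneg_right h4 hρ.le
  have h6 : u * r.re * (((m : ℝ) + 1) / rh m t) * (1 - 1 / (10 * ((m : ℝ) + 1))) =
      u * (((m : ℝ) + 1) / rh m t * r.re - r.re / 10 / rh m t) := by
    field_simp
  have h7 : Real.sqrt (((m : ℝ) + 1) ^ 2 + t ^ 2) = rh m t := rfl
  rw [h1, hc, h7, h6]
  refine mul_le_mul_of_nonneg_left ?_ hu.le
  linarith

/-- one of the two terms -/
theorem term_le (C : ℝ) (k : ℕ)
    (hP : ∀ (m : ℕ) (t W : ℝ) (w : ℂ), 0 < W →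
      ‖w‖ ≤ W * (1 + 1 / (10 * (1 + |t| + m))) →
      W * ((m + 1) / Real.sqrt (((m : ℝ) + 1) ^ 2 + t ^ 2)) * (1 - 1 / (10 * (m + 1))) ≤ w.re →
      ‖phm m w‖ * (1 + W) ≤
        C * (1 + |t| + m) ^ k * cB m t * W * Real.exp (-(2 * W / (1 + |t| + m))))
    (m : ℕ) (t θ : ℝ) (r w : ℂ) (κ u : ℝ) (hk : 0 ≤ κ) (hk' : κ ≤ 1 / 8)
    (hθ : θ = th m t ∨ θ = -th m t) (hr : 0 < r.re)
    (hi : 10 * (1 + |t| + m) * |r.im| ≤ r.re) (hu : 1 < u) (hw : w.re ≤ 1 / 2 + κ)
    (hwi : θ * w.im = th m t * t) :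
    ‖phm m (Complex.exp ((θ : ℂ) * Complex.I) * u * r) *
      (Complex.exp ((θ : ℂ) * Complex.I) * u) ^ w‖ ≤
      C * (1 + |t| + m) ^ k * cG m t * r.re ^ (-(1 / 2 + κ)) * (u * r.re) *
        Real.exp (-(2 * (u * r.re) / (1 + |t| + m))) := by
  have hu0 : 0 < u := by linarith
  have hW : 0 < u * r.re := mul_pos hu0 hr
  have h1 := hP m t (u * r.re) (Complex.exp ((θ : ℂ) * Complex.I) * u * r) hW
    (norm_rot m t θ u r hu0 hr hi) (re_rot m t θ u r hθ hu0 hr hi)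
  have hθa : |θ| < π / 2 := by
    have h2 : |th m t| < π / 2 := by
      unfold th
      rw [abs_lt]
      exact ⟨Real.neg_pi_div_two_lt_arctan _, Real.arctan_lt_pi_div_two _⟩
    rcases hθ with rfl | rfl
    · exact h2
    · rw [abs_neg]; exact h2
  have hpi := Real.pi_pos
  have harg : (Complex.exp ((θ : ℂ) * Complex.I) * u).arg = θ := by
    have h1 : Complex.exp ((θ : ℂ) * Complex.I) * u =
        (u : ℂ) * (Complex.cos θ + Complex.sin θ * Complex.I) := by
      rw [Complex.exp_mul_I]; ring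
    rw [h1]
    refine Complex.arg_mul_cos_add_sin_mul_I hu0 ⟨?_, ?_⟩
    · have := (abs_lt.1 hθa).1; linarith
    · have := (abs_lt.1 hθa).2; linarith
  have hne : Complex.exp ((θ : ℂ) * Complex.I) * u ≠ 0 :=
    mul_ne_zero (Complex.exp_ne_zero _) (by exact_mod_cast hu0.ne')
  have h2 : ‖(Complex.exp ((θ : ℂ) * Complex.I) * u) ^ w‖ ≤
      (1 + u * r.re) * r.re ^ (-(1 / 2 + κ)) * Real.exp (-(t * th m t)) := by
    rw [Complex.norm_cpow_of_ne_zero hne, harg, hwi, norm_mul, Complex.norm_exp_ofReal_mul_I,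
      one_mul, Complex.norm_real, Real.norm_of_nonneg hu0.le, div_eq_mul_inv, ← Real.exp_neg,
      mul_comm (th m t) t]
    refine mul_le_mul_of_nonneg_right ?_ (Real.exp_pos _).le
    have e1 : u ^ w.re ≤ u ^ (1 / 2 + κ) := Real.rpow_le_rpow_of_exponent_le hu.le hw
    have e2 : u ^ (1 / 2 + κ) = (u * r.re) ^ (1 / 2 + κ) * r.re ^ (-(1 / 2 + κ)) := by
      rw [Real.mul_rpow hu0.le hr.le, mul_assoc, ← Real.rpow_add hr]
      simp
    have e3 : (u * r.re) ^ (1 / 2 + κ) ≤ 1 + u * r.re := by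
      calc (u * r.re) ^ (1 / 2 + κ) ≤ (1 + u * r.re) ^ (1 / 2 + κ) :=
            Real.rpow_le_rpow hW.le (by linarith) (by linarith)
        _ ≤ (1 + u * r.re) ^ (1 : ℝ) := Real.rpow_le_rpow_of_exponent_le (by linarith) (by linarith)
        _ = 1 + u * r.re := Real.rpow_one _
    rw [e2] at e1
    exact e1.trans (mul_le_mul_of_nonneg_right e3 (Real.rpow_nonneg hr.le _))
  rw [norm_mul]
  have hr0 : 0 ≤ r.re ^ (-(1 / 2 + κ)) := Real.rpow_nonneg hr.le _
  calc ‖phm m (Complex.exp ((θ : ℂ) * Complex.I) * u * r)‖ *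
        ‖(Complex.exp ((θ : ℂ) * Complex.I) * u) ^ w‖ ≤
      ‖phm m (Complex.exp ((θ : ℂ) * Complex.I) * u * r)‖ *
        ((1 + u * r.re) * r.re ^ (-(1 / 2 + κ)) * Real.exp (-(t * th m t))) :=
        mul_le_mul_of_nonneg_left h2 (norm_nonneg _)
    _ = ‖phm m (Complex.exp ((θ : ℂ) * Complex.I) * u * r)‖ * (1 + u * r.re) *
        (r.re ^ (-(1 / 2 + κ)) * Real.exp (-(t * th m t))) := by ring
    _ ≤ C * (1 + |t| + m) ^ k * cB m t * (u * r.re) *
          Real.exp (-(2 * (u * r.re) / (1 + |t| + m))) *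
        (r.re ^ (-(1 / 2 + κ)) * Real.exp (-(t * th m t))) :=
        mul_le_mul_of_nonneg_right h1 (by positivity)
    _ = _ := by
        rw [cG_eq]
        unfold th
        ring

/-- the pointwise bound of the integrand -/
theorem kmi_le (C : ℝ) (k : ℕ) (hC : 0 < C)
    (hP : ∀ (m : ℕ) (t W : ℝ) (w : ℂ), 0 < W →
      ‖w‖ ≤ W * (1 + 1 / (10 * (1 + |t| + m))) →
      W * ((m + 1) / Real.sqrt (((m : ℝ) + 1) ^ 2 + t ^ 2)) * (1 - 1 / (10 * (m + 1))) ≤ w.re →
      ‖phm m w‖ * (1 + W) ≤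
        C * (1 + |t| + m) ^ k * cB m t * W * Real.exp (-(2 * W / (1 + |t| + m))))
    (m : ℕ) (κ : ℝ) (s r : ℂ) (hk : 0 ≤ κ) (hk' : κ ≤ 1 / 8) (hs : |s.re - 1 / 2| ≤ κ)
    (hr : 0 < r.re) (hi : 10 * (1 + |s.im| + m) * |r.im| ≤ r.re) (u : ℝ) (hu : 1 < u) :
    ‖Kmi m (tum m s.im) s r u‖ ≤ 2 * C * (1 + |s.im| + m) ^ k * cG m s.im *
      r.re ^ (-(1 / 2 + κ)) * Real.exp (-(r.re / (1 + |s.im| + m))) *
        (r.re * Real.exp (-(r.re / (1 + |s.im| + m)) * u)) := by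
  have hu0 : 0 < u := by linarith
  have hT := one_le_T m s.im
  have hT0 : 0 < 1 + |s.im| + (m : ℝ) := by linarith
  have hs' := abs_le.1 hs
  unfold Kmi
  rw [norm_div, Complex.norm_real, Real.norm_of_nonneg hu0.le]
  have h1 := term_le C k hP m s.im (th m s.im) r s κ u hk hk' (Or.inl rfl) hr hi hu
    (by linarith [hs'.2]) rfl
  have h2 := term_le C k hP m s.im (-th m s.im) r (1 - s) κ u hk hk' (Or.inr rfl) hr hi hu
    (by rw [Complex.sub_re, Complex.one_re]; linarith [hs'.1])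
    (by rw [Complex.sub_im, Complex.one_im]; ring)
  rw [← tum_eq] at h1
  rw [← tum_inv] at h2
  have hcG : 0 ≤ cG m s.im := by
    unfold cG
    positivity
  have hr0 : 0 ≤ r.re ^ (-(1 / 2 + κ)) := Real.rpow_nonneg hr.le _
  have h4 : ‖phm m (tum m s.im * u * r) * (tum m s.im * u) ^ s +
      phm m ((tum m s.im)⁻¹ * u * r) * ((tum m s.im)⁻¹ * u) ^ (1 - s)‖ / u ≤
      2 * (C * (1 + |s.im| + m) ^ k * cG m s.im * r.re ^ (-(1 / 2 + κ)) * (u * r.re) *
        Real.exp (-(2 * (u * r.re) / (1 + |s.im| + m)))) / u := by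
    refine div_le_div_of_nonneg_right ?_ hu0.le
    refine (norm_add_le _ _).trans ?_
    linarith
  refine h4.trans ?_
  have e1 : 2 * (C * (1 + |s.im| + m) ^ k * cG m s.im * r.re ^ (-(1 / 2 + κ)) * (u * r.re) *
        Real.exp (-(2 * (u * r.re) / (1 + |s.im| + m)))) / u =
      2 * C * (1 + |s.im| + m) ^ k * cG m s.im * r.re ^ (-(1 / 2 + κ)) * r.re *
        Real.exp (-(2 * (u * r.re) / (1 + |s.im| + m))) := by
    field_simp
  rw [e1]
  have h5 : Real.exp (-(2 * (u * r.re) / (1 + |s.im| + m))) ≤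
      Real.exp (-(r.re / (1 + |s.im| + m))) * Real.exp (-(r.re / (1 + |s.im| + m)) * u) := by
    rw [← Real.exp_add]
    apply Real.exp_le_exp.2
    have h6 : 0 < r.re / (1 + |s.im| + m) := by positivity
    have h7 : 2 * (u * r.re) / (1 + |s.im| + m) = 2 * u * (r.re / (1 + |s.im| + m)) := by ring
    rw [h7]
    nlinarith
  calc 2 * C * (1 + |s.im| + m) ^ k * cG m s.im * r.re ^ (-(1 / 2 + κ)) * r.re *
        Real.exp (-(2 * (u * r.re) / (1 + |s.im| + m))) ≤
      2 * C * (1 + |s.im| + m) ^ k * cG m s.im * r.re ^ (-(1 / 2 + κ)) * r.re *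
        (Real.exp (-(r.re / (1 + |s.im| + m))) * Real.exp (-(r.re / (1 + |s.im| + m)) * u)) :=
        mul_le_mul_of_nonneg_left h5 (by positivity)
    _ = _ := by ring

theorem pf_KCBm (hPHB : T_PHB) : T_KCBm := by
  obtain ⟨C, k, hC, hP⟩ := hPHB
  refine ⟨2 * C, k + 1, by positivity, ?_⟩
  intro m κ s r hk hk' hs hr hi
  have hT := one_le_T m s.im
  have hT0 : 0 < 1 + |s.im| + (m : ℝ) := by linarith
  have hcG : 0 ≤ cG m s.im := by
    unfold cG
    positivity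
  set K : ℝ := 2 * C * (1 + |s.im| + m) ^ k * cG m s.im *
      r.re ^ (-(1 / 2 + κ)) * Real.exp (-(r.re / (1 + |s.im| + m))) with hK
  have hK0 : 0 ≤ K := by
    have := Real.rpow_nonneg hr.le (-(1 / 2 + κ))
    positivity
  have hb : 0 < r.re / (1 + |s.im| + m) := by positivity
  have hint : IntegrableOn (fun u : ℝ => K * (r.re * Real.exp (-(r.re / (1 + |s.im| + m)) * u)))
      (Ioi 1) := by
    have h1 := integrableOn_exp_mul_Ioi (a := -(r.re / (1 + |s.im| + m))) (by linarith) 1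
    exact (h1.const_mul r.re).const_mul K
  have hle : ∀ᵐ u ∂(volume.restrict (Ioi (1 : ℝ))), ‖Kmi m (tum m s.im) s r u‖ ≤
      K * (r.re * Real.exp (-(r.re / (1 + |s.im| + m)) * u)) := by
    refine (ae_restrict_mem measurableSet_Ioi).mono fun u hu => ?_
    exact kmi_le C k hC hP m κ s r hk hk' hs hr hi u hu
  refine ⟨Integrable.mono' hint (kmi_meas _ _ _ _).aestronglyMeasurable hle, ?_⟩
  unfold Kmc
  refine (norm_integral_le_of_norm_le hint hle).trans ?_
  have h3 : ∫ u in Ioi (1 : ℝ), K * (r.re * Real.exp (-(r.re / (1 + |s.im| + m)) * u)) =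
      K * (r.re * ((1 + |s.im| + m) / r.re * Real.exp (-(r.re / (1 + |s.im| + m))))) := by
    rw [integral_const_mul, integral_const_mul]
    congr 2
    rw [integral_exp_mul_Ioi (a := -(r.re / (1 + |s.im| + m))) (by linarith) 1, mul_one]
    field_simp
  rw [h3]
  have h6 : r.re * ((1 + |s.im| + m) / r.re * Real.exp (-(r.re / (1 + |s.im| + m)))) ≤
      1 + |s.im| + m := by
    have h7 : Real.exp (-(r.re / (1 + |s.im| + m))) ≤ 1 := Real.exp_le_one_iff.2 (by linarith)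
    have h8 : r.re * ((1 + |s.im| + m) / r.re * Real.exp (-(r.re / (1 + |s.im| + m)))) =
        (1 + |s.im| + m) * Real.exp (-(r.re / (1 + |s.im| + m))) := by
      field_simp
    rw [h8]
    calc (1 + |s.im| + (m : ℝ)) * Real.exp (-(r.re / (1 + |s.im| + m))) ≤
          (1 + |s.im| + m) * 1 := mul_le_mul_of_nonneg_left h7 hT0.le
      _ = _ := mul_one _
  refine (mul_le_mul_of_nonneg_left h6 hK0).trans (le_of_eq ?_)
  rw [hK]
  ring

end Pool.Agent.H38.FC
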